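import Pool.Agent.Helper95.AB.GoalsW

/-! Project AB, packet LK: the potential in the sheet `k`, and the flux of the holes. -/

set_option autoImplicit false

open MeasureTheory Set Filter Topology
open Pool.Agent.Helper24.AB Pool.Agent.Helper95.AB

namespace Pool.Agent.Helper29.AB

theorem lam_pos : 0 < lam := by unfold lam; positivity

theorem p_shift {p : ℂ → ℝ} (h : ∀ w, p (w + 2 * Real.pi * Complex.I) = lam * p w) (k : ℤ) :
    ∀ w, p (w + 2 * Real.pi * k * Complex.I) = lam ^ k * p w := by
  have hl := lam_pos.ne'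
  induction k using Int.induction_on with
  | zero => intro w; simp
  | succ k ih =>
    intro w
    have e : w + 2 * Real.pi * ((k : ℤ) + 1 : ℤ) * Complex.I
        = (w + 2 * Real.pi * (k : ℤ) * Complex.I) + 2 * Real.pi * Complex.I := by
      push_cast; ring
    rw [e, h, ih, zpow_add_one₀ hl]; ring
  | pred k ih =>
    intro w
    have e : w + 2 * Real.pi * (-(k : ℤ) : ℤ) * Complex.I
        = (w + 2 * Real.pi * (-(k : ℤ) - 1 : ℤ) * Complex.I) + 2 * Real.pi * Complex.I := by
      push_cast; ring
    have h1 := ih w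
    rw [e, h] at h1
    rw [zpow_sub_one₀ hl]
    field_simp
    rw [mul_comm, h1]

theorem lapC_shift {p : ℂ → ℝ} {C : ℝ} {c : ℂ} (h : ∀ w, p (w + c) = C * p w) (w : ℂ) :
    lapC p (w + c) = C * lapC p w := by
  have key : ∀ (f : ℂ → ℝ) (v : ℂ), (∀ w, f (w + c) = C * f w) →
      ∀ w, fderiv ℝ f (w + c) v = C * fderiv ℝ f w v := by
    intro f v hf w
    have e1 : fderiv ℝ (fun w => f (w + c)) w = fderiv ℝ f (w + c) := fderiv_comp_add_right c
    have e2 : (fun w => f (w + c)) = C • f := by
      funext w; rw [hf]; rfl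
    rw [← e1, e2, fderiv_const_smul_field]
    rfl
  have hS := key p 1 h
  have hT := key p Complex.I h
  have hSS := key (dS p) 1 hS
  have hTT := key (dT p) Complex.I hT
  unfold lapC
  have a1 : dS (dS p) (w + c) = C * dS (dS p) w := hSS w
  have a2 : dT (dT p) (w + c) = C * dT (dT p) w := hTT w
  rw [a1, a2]; ring

theorem lk : S_LK := by
  intro a δ₀ ρ₀ p B hp
  have h1 : ∀ (k : ℤ) (w : ℂ), lapC p (w + 2 * Real.pi * k * Complex.I) = lam ^ k * lapC p w :=
    fun k w => lapC_shift (p_shift hp.p1 k) w
  refine ⟨h1, ?_⟩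
  intro k j i i' hi hi' r hr1 hr2
  set x := B.ctr j i i' with hx
  set c : ℂ := 2 * Real.pi * k * Complex.I with hc
  have e1 : ∫ w in Metric.ball (x + c) r, lapC p w = ∫ w in Metric.ball x r, lapC p (w + c) := by
    rw [← integral_indicator Metric.isOpen_ball.measurableSet,
      ← integral_indicator Metric.isOpen_ball.measurableSet,
      ← integral_add_right_eq_self _ c]
    refine integral_congr_ae (Eventually.of_forall fun w => ?_)
    by_cases hw : w ∈ Metric.ball x r
    · have hw' : w + c ∈ Metric.ball (x + c) r := by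
        rw [Metric.mem_ball] at hw ⊢
        rwa [dist_add_right]
      simp only [Set.indicator_of_mem hw, Set.indicator_of_mem hw']
    · have hw' : w + c ∉ Metric.ball (x + c) r := by
        rw [Metric.mem_ball] at hw ⊢
        rwa [dist_add_right]
      simp only [Set.indicator_of_notMem hw, Set.indicator_of_notMem hw']
  have e2 : ∫ w in Metric.ball x r, lapC p w = ∫ w in Metric.ball x (B.rho j / 4), lapC p w := by
    refine setIntegral_eq_of_subset_of_forall_sdiff_eq_zero Metric.isOpen_ball.measurableSet
      (Metric.ball_subset_ball hr1) ?_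
    intro w hw
    have hw1 : ‖w - x‖ < r := by simpa [dist_eq_norm] using hw.1
    have hw2 : B.rho j / 4 ≤ ‖w - x‖ := by
      have := hw.2
      rw [Metric.mem_ball, dist_eq_norm, not_lt] at this
      exact this
    exact hp.off j i i' hi hi' w ((Complex.abs_re_le_norm _).trans (hw1.le.trans hr2))
      ((Complex.abs_im_le_norm _).trans (hw1.le.trans hr2)) hw2
  rw [e1, setIntegral_congr_fun Metric.isOpen_ball.measurableSet (fun w _ => h1 k w),
    integral_const_mul, e2, hp.flux j i i' hi hi']
  ring

end Pool.Agent.Helper29.AB
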